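import Mathlib

/-!
Selective high divergence is not dense hereditary.

The space is a Cantor cube `2^I` with `I = ℕ^ℕ × ℝ` (so `|I| = 𝔠`), a compact Hausdorff space, and the
dense subspace is the `Σ`-product of the points with countable support, which is sequentially
compact.
-/

namespace Pool.Agent.Results.MP_f0fa00_gt.CantorCube

open Set Filter Topology

universe u

/-- `X` is selectively highly divergent: for every sequence of non-empty open sets one can choose
points in these sets so that no subsequence of the sequence of points converges in `X`. -/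
def SHD (X : Type u) [TopologicalSpace X] : Prop :=
  ∀ U : ℕ → Set X, (∀ n, IsOpen (U n)) → (∀ n, (U n).Nonempty) →
    ∃ x : ℕ → X, (∀ n, x n ∈ U n) ∧
      ∀ φ : ℕ → ℕ, StrictMono φ → ∀ a : X, ¬ Tendsto (fun k => x (φ k)) atTop (𝓝 a)

/-- A non-empty sequentially compact space is not selectively highly divergent. -/
theorem not_SHD_of_seqCompact (X : Type u) [TopologicalSpace X] [SeqCompactSpace X] [Nonempty X] :
    ¬ SHD X := by
  intro h
  obtain ⟨x, -, hx⟩ := h (fun _ => univ) (fun _ => isOpen_univ) (fun _ => univ_nonempty)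
  obtain ⟨a, φ, hφ, ha⟩ := SeqCompactSpace.tendsto_subseq x
  exact hx φ hφ a ha

/-- The index set of the cube. -/
abbrev I : Type := (ℕ → ℕ) × ℝ

/-- The points of the cube with countable support. -/
def sigmaProduct : Set (I → Bool) := {x | {i | x i = true}.Countable}

/-- A finite part of a point of an open set already forces membership. -/
theorem exists_finset {U : Set (I → Bool)} (hU : IsOpen U) {u : I → Bool} (hu : u ∈ U) :
    ∃ F : Finset I, ∀ y : I → Bool, (∀ i ∈ F, y i = u i) → y ∈ U := by
  obtain ⟨F, v, hv, hsub⟩ := isOpen_pi_iff.1 hU u hu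
  exact ⟨F, fun y hy => hsub fun i hi => by rw [hy i hi]; exact (hv i hi).2⟩

theorem dense_sigmaProduct : Dense sigmaProduct := by
  classical
  rw [dense_iff_inter_open]
  rintro U hU ⟨u, hu⟩
  obtain ⟨F, hF⟩ := exists_finset hU hu
  refine ⟨fun i => if i ∈ F then u i else false, hF _ fun i hi => by simp [hi], ?_⟩
  refine (F.finite_toSet.subset fun i hi => ?_).countable
  by_contra hiF
  simp only [mem_ofPred_eq] at hi
  rw [if_neg (fun h => hiF (Finset.mem_coe.2 h))] at hi
  exact absurd hi (by simp)

instance seqCompact_sigmaProduct : SeqCompactSpace sigmaProduct := by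
  classical
  constructor
  intro y _
  let S : Set I := ⋃ n, {i | (y n).1 i = true}
  have hS : S.Countable := countable_iUnion fun n => (y n).2
  have : Countable S := hS.to_subtype
  obtain ⟨b, φ, hφ, hb⟩ := SeqCompactSpace.tendsto_subseq (fun n (i : S) => (y n).1 i)
  let a : I → Bool := fun i => if h : i ∈ S then b ⟨i, h⟩ else false
  have ha : a ∈ sigmaProduct := by
    refine hS.mono fun i hi => ?_
    by_contra hiS
    simp only [mem_ofPred_eq, a, dif_neg hiS] at hi
    exact absurd hi (by simp)
  refine ⟨⟨a, ha⟩, mem_univ _, φ, hφ, ?_⟩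
  rw [tendsto_subtype_rng, tendsto_pi_nhds]
  intro i
  by_cases hi : i ∈ S
  · have := (tendsto_pi_nhds.1 hb) ⟨i, hi⟩
    simp only [a, dif_pos hi]
    exact this
  · have h0 : ∀ n, (y n).1 i = false := by
      intro n
      by_contra hn
      exact hi (mem_iUnion.2 ⟨n, by simpa using hn⟩)
    simp only [a, dif_neg hi, Function.comp_apply, h0]
    exact tendsto_const_nhds

theorem SHD_cube : SHD (I → Bool) := by
  classical
  intro U hU hne
  choose u hu using hne
  choose F hF using fun n => exists_finset (hU n) (hu n)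
  have hC : (⋃ n, (F n : Set I)).Countable := countable_iUnion fun n => (F n).countable_toSet
  have hr : ∀ ψ : ℕ → ℕ, ∃ r : ℝ, (ψ, r) ∉ ⋃ n, (F n : Set I) := by
    intro ψ
    by_contra hcon
    push Not at hcon
    have h1 : (univ : Set ℝ).Countable :=
      (hC.preimage_of_injOn (f := fun r : ℝ => ((ψ, r) : I))
        (fun a _ b _ hab => (Prod.mk.inj hab).2)).mono fun r _ => hcon r
    exact Set.not_countable_univ h1
  refine ⟨fun n i => if i ∈ F n then u n i else decide (∃ k, n = i.1 (2 * k)),
    fun n => hF n _ fun i hi => by simp [hi], ?_⟩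
  intro φ hφ a ha
  obtain ⟨r, hr⟩ := hr φ
  have hnot : ∀ n, ((φ, r) : I) ∉ F n := fun n hn => hr (mem_iUnion.2 ⟨n, hn⟩)
  have h1 := (tendsto_pi_nhds.1 ha) (φ, r)
  simp only [hnot, if_false] at h1
  have h2 : ∀ᶠ k in atTop, decide (∃ j, φ k = φ (2 * j)) = a (φ, r) := by
    have := h1 (show {a (φ, r)} ∈ 𝓝 (a (φ, r)) from (isOpen_discrete _).mem_nhds rfl)
    exact this
  obtain ⟨N, hN⟩ := eventually_atTop.1 h2
  have h3 := hN (2 * N) (by omega)
  have h4 := hN (2 * N + 1) (by omega)
  rw [← h3] at h4
  have h5 : ∃ j, φ (2 * N) = φ (2 * j) := ⟨N, rfl⟩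
  rw [decide_eq_true h5] at h4
  obtain ⟨j, hj⟩ := of_decide_eq_true h4
  have := hφ.injective hj
  omega

/-- There is a compact Hausdorff selectively highly divergent space with a dense subspace which is
sequentially compact and hence not selectively highly divergent. -/
theorem result : ∃ (X : Type) (_ : TopologicalSpace X) (_ : CompactSpace X) (_ : T2Space X)
    (D : Set X), Dense D ∧ SHD X ∧ SeqCompactSpace D ∧ ¬ SHD D :=
  ⟨I → Bool, inferInstance, inferInstance, inferInstance, sigmaProduct, dense_sigmaProduct, SHD_cube,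
    seqCompact_sigmaProduct,
    have : Nonempty sigmaProduct := ⟨⟨fun _ => false, by simp [sigmaProduct]⟩⟩
    not_SHD_of_seqCompact _⟩

end Pool.Agent.Results.MP_f0fa00_gt.CantorCube
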